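import Pool.Agent.H77.BD.Targets

/-!
# Row XCO of the board `bct_modules` (MP_9d0bb7_lc)
-/

set_option autoImplicit false

open Set Matrix Pool.Agent.H77.BC Pool.Agent.H77.BD

namespace Pool.Agent.H35.BCT

variable {l : ℕ} {C : Matrix (Fin l) (Fin l) ℤ} {F : Type} [Field F]

theorem Xf_neg (β : Root C) (t : F) (v : Sp C F) : Xf β t (-v) = - Xf β t v := by
  rw [← neg_one_smul F v, Xf_smul, neg_one_smul]

theorem Xf_sub (β : Root C) (t : F) (u v : Sp C F) : Xf β t (u - v) = Xf β t u - Xf β t v := by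
  rw [sub_eq_add_neg, Xf_add, Xf_neg, sub_eq_add_neg]

theorem pf_XCO (hXEB : T_XEB) (hSPB : T_SPB) : T_XCO := by
  intro l C hC F _ β γ δ hδ s t v
  have hbg : ip C β.1 γ.1 = -1 := ip_of_sum hC β γ δ hδ
  have hgb : ip C γ.1 β.1 = -1 := by rw [ip_comm hC]; exact hbg
  have hdb : ip C δ.1 β.1 = 1 := by rw [hδ, ip_add_left, ip_self, hgb]; norm_num
  have hdg : ip C δ.1 γ.1 = 1 := by rw [hδ, ip_add_left, ip_self, hbg]; norm_num
  have hbd : ip C β.1 δ.1 = 1 := by rw [ip_comm hC]; exact hdb
  have hgd : ip C γ.1 δ.1 = 1 := by rw [ip_comm hC]; exact hdg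
  have egb : eps C γ.1 β.1 = - eps C β.1 γ.1 := by
    rw [eps_swap hC, hgb, sg_neg, sg_one, mul_neg_one]
  have ebb := eps_self hC β
  have egg := eps_self hC γ
  have ebd : eps C β.1 δ.1 = - eps C β.1 γ.1 := by rw [hδ, eps_add_right, ebb, neg_one_mul]
  have egd : eps C γ.1 δ.1 = eps C β.1 γ.1 := by
    rw [hδ, eps_add_right, egg, egb, mul_neg_one, neg_neg]
  have edb : eps C δ.1 β.1 = eps C β.1 γ.1 := by
    rw [hδ, eps_add_left, ebb, egb, neg_one_mul, neg_neg]
  have edg : eps C δ.1 γ.1 = - eps C β.1 γ.1 := by rw [hδ, eps_add_left, egg, mul_neg_one]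
  obtain ⟨f1, f2, f3, f4⟩ := hXEB hC (F := F) β s
  obtain ⟨g1, g2, g3, g4⟩ := hXEB hC (F := F) γ t
  obtain ⟨d1, d2, d3, d4⟩ := hXEB hC (F := F) δ ((eps C β.1 γ.1 : F) * s * t)
  -- roots
  have fbg : Xf β s (eb F γ) = eb F γ + ((eps C β.1 γ.1 : F) * s) • eb F δ := f2 γ δ hδ
  have ggb : Xf γ t (eb F β) = eb F β + (-(eps C β.1 γ.1 : F) * t) • eb F δ := by
    have h := g2 β δ (by rw [hδ, add_comm])
    rw [egb, Int.cast_neg] at h
    exact h
  have fb : Xf β s (eb F β) = eb F β := f1 β (by rw [ip_self]; norm_num)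
  have gg : Xf γ t (eb F γ) = eb F γ := g1 γ (by rw [ip_self]; norm_num)
  have fd : Xf β s (eb F δ) = eb F δ := f1 δ (by rw [hbd]; norm_num)
  have gd : Xf γ t (eb F δ) = eb F δ := g1 δ (by rw [hgd]; norm_num)
  have db : Xf δ ((eps C β.1 γ.1 : F) * s * t) (eb F β) = eb F β := d1 β (by rw [hdb]; norm_num)
  have dg : Xf δ ((eps C β.1 γ.1 : F) * s * t) (eb F γ) = eb F γ := d1 γ (by rw [hdg]; norm_num)
  have dd : Xf δ ((eps C β.1 γ.1 : F) * s * t) (eb F δ) = eb F δ :=
    d1 δ (by rw [ip_self]; norm_num)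
  have fng : Xf β s (eb F (ng γ)) = eb F (ng γ) :=
    f1 _ (by rw [ng_val, ip_neg_right, hbg]; norm_num)
  have gnb : Xf γ t (eb F (ng β)) = eb F (ng β) :=
    g1 _ (by rw [ng_val, ip_neg_right, hgb]; norm_num)
  have dnb : Xf δ ((eps C β.1 γ.1 : F) * s * t) (eb F (ng β)) = eb F (ng β) +
      ((eps C β.1 γ.1 : F) * ((eps C β.1 γ.1 : F) * s * t)) • eb F γ := by
    have h := d2 (ng β) γ (by rw [ng_val, hδ]; abel)
    rw [ng_val, eps_neg_right, edb] at h
    exact h
  have dng : Xf δ ((eps C β.1 γ.1 : F) * s * t) (eb F (ng γ)) = eb F (ng γ) +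
      (-(eps C β.1 γ.1 : F) * ((eps C β.1 γ.1 : F) * s * t)) • eb F β := by
    have h := d2 (ng γ) β (by rw [ng_val, hδ]; abel)
    rw [ng_val, eps_neg_right, edg, Int.cast_neg] at h
    exact h
  have fnd : Xf β s (eb F (ng δ)) = eb F (ng δ) +
      (-(eps C β.1 γ.1 : F) * s) • eb F (ng γ) := by
    have h := f2 (ng δ) (ng γ) (by rw [ng_val, ng_val, hδ]; abel)
    rw [ng_val, eps_neg_right, ebd, Int.cast_neg] at h
    exact h
  have gnd : Xf γ t (eb F (ng δ)) = eb F (ng δ) +
      ((eps C β.1 γ.1 : F) * t) • eb F (ng β) := by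
    have h := g2 (ng δ) (ng β) (by rw [ng_val, ng_val, hδ]; abel)
    rw [ng_val, eps_neg_right, egd] at h
    exact h
  have fhg : Xf β s (hb (hh C F γ.1) : Sp C F) = hb (hh C F γ.1) + s • eb F β := by
    rw [f4, pr_hh, hbg]
    push_cast
    module
  have ghb : Xf γ t (hb (hh C F β.1) : Sp C F) = hb (hh C F β.1) + t • eb F γ := by
    rw [g4, pr_hh, hgb]
    push_cast
    module
  have dhb : Xf δ ((eps C β.1 γ.1 : F) * s * t) (hb (hh C F β.1) : Sp C F) =
      hb (hh C F β.1) - ((eps C β.1 γ.1 : F) * s * t) • eb F δ := by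
    rw [d4, pr_hh, hdb, Int.cast_one, mul_one]
  have dhg : Xf δ ((eps C β.1 γ.1 : F) * s * t) (hb (hh C F γ.1) : Sp C F) =
      hb (hh C F γ.1) - ((eps C β.1 γ.1 : F) * s * t) • eb F δ := by
    rw [d4, pr_hh, hdg, Int.cast_one, mul_one]
  have hhd : (hb (hh C F δ.1) : Sp C F) = hb (hh C F β.1) + hb (hh C F γ.1) := by
    rw [hδ, hh_add]
    refine Prod.ext ?_ rfl
    funext i
    simp [hb]
  refine hSPB hC (fun v => Xf β s (Xf γ t v))
    (fun v => Xf δ ((eps C β.1 γ.1 : F) * s * t) (Xf γ t (Xf β s v))) ?_ ?_ ?_ ?_ ?_ ?_ v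
  · intro u v
    simp only [Xf_add]
  · intro a v
    simp only [Xf_smul]
  · intro u v
    simp only [Xf_add]
  · intro a v
    simp only [Xf_smul]
  · intro d
    show Xf β s (Xf γ t (eb F d)) =
      Xf δ ((eps C β.1 γ.1 : F) * s * t) (Xf γ t (Xf β s (eb F d)))
    have hsum : ip C δ.1 d.1 = ip C β.1 d.1 + ip C γ.1 d.1 := by rw [hδ, ip_add_left]
    have b1 := neg_two_le_ip hC β d
    have b2 := ip_le_two hC β d
    have b3 := neg_two_le_ip hC γ d
    have b4 := ip_le_two hC γ d
    by_cases ha : 0 ≤ ip C β.1 d.1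
    · by_cases hb0 : 0 ≤ ip C γ.1 d.1
      · rw [g1 d hb0, f1 d ha, g1 d hb0, d1 d (by omega)]
      · by_cases hb2 : ip C γ.1 d.1 = -2
        · -- d = -γ
          have hd : d = ng γ := Subtype.ext (ip_eq_neg_two hC γ d hb2)
          subst hd
          rw [g3, fng, g3]
          simp only [Xf_add, Xf_sub, Xf_smul, fng, fhg, fbg, dng, dhg, dg]
          rcases eps_cases (C := C) β.1 γ.1 with he | he <;> rw [he] <;> push_cast <;> module
        · have hb1 : ip C γ.1 d.1 = -1 := by omega
          by_cases ha0 : ip C β.1 d.1 = 0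
          · -- (0, -1)
            have hm : ip C β.1 (ad hC γ d hb1).1 = -1 := by
              rw [ad_val, ip_add_right, hbg, ha0]; norm_num
            have e1 := g2 d (ad hC γ d hb1) rfl
            have e2 := f2 (ad hC γ d hb1) (ad hC β (ad hC γ d hb1) hm) rfl
            have e3 := d2 d (ad hC β (ad hC γ d hb1) hm) (by
              rw [ad_val, ad_val, hδ]; abel)
            have e4 := d1 (ad hC γ d hb1) (by
              rw [ad_val, ip_add_right, hdg, hsum, ha0, hb1]; norm_num)
            rw [e1, f1 d ha, e1]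
            simp only [Xf_add, Xf_smul, f1 d ha, e2, e3, e4]
            simp only [ad_val, hδ, eps_add_left, eps_add_right, Int.cast_mul]
            module
          · -- (≥ 1, -1)
            have e1 := g2 d (ad hC γ d hb1) rfl
            have e2 := f1 (ad hC γ d hb1) (by
              rw [ad_val, ip_add_right, hbg]; omega)
            have e3 := d1 d (by rw [hsum]; omega)
            have e4 := d1 (ad hC γ d hb1) (by
              rw [ad_val, ip_add_right, hdg, hsum]; omega)
            rw [e1, f1 d ha, e1]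
            simp only [Xf_add, Xf_smul, f1 d ha, e2, e3, e4]
    · by_cases ha2 : ip C β.1 d.1 = -2
      · -- d = -β
        have hd : d = ng β := Subtype.ext (ip_eq_neg_two hC β d ha2)
        subst hd
        rw [gnb, f3]
        simp only [Xf_add, Xf_sub, Xf_smul, gnb, ghb, ggb, dnb, dhb, dg, db, dd]
        rcases eps_cases (C := C) β.1 γ.1 with he | he <;> rw [he] <;> push_cast <;> module
      · have ha1 : ip C β.1 d.1 = -1 := by omega
        by_cases hb1 : 1 ≤ ip C γ.1 d.1
        · -- (-1, ≥ 1)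
          have e1 := f2 d (ad hC β d ha1) rfl
          have e2 := g1 (ad hC β d ha1) (by rw [ad_val, ip_add_right, hgb]; omega)
          have e3 := d1 d (by rw [hsum]; omega)
          have e4 := d1 (ad hC β d ha1) (by rw [ad_val, ip_add_right, hdb, hsum]; omega)
          rw [g1 d (by omega), e1]
          simp only [Xf_add, Xf_smul, g1 d (by omega), e2, e3, e4]
        · by_cases hb0 : ip C γ.1 d.1 = 0
          · -- (-1, 0)
            have hm : ip C γ.1 (ad hC β d ha1).1 = -1 := by
              rw [ad_val, ip_add_right, hgb, hb0]; norm_num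
            have e1 := f2 d (ad hC β d ha1) rfl
            have e2 := g2 (ad hC β d ha1) (ad hC γ (ad hC β d ha1) hm) rfl
            have e3 := d2 d (ad hC γ (ad hC β d ha1) hm) (by
              rw [ad_val, ad_val, hδ]; abel)
            have e4 := d1 (ad hC β d ha1) (by
              rw [ad_val, ip_add_right, hdb, hsum, ha1, hb0]; norm_num)
            have e5 := d1 (ad hC γ (ad hC β d ha1) hm) (by
              rw [ad_val, ad_val, ip_add_right, ip_add_right, hdb, hdg, hsum, ha1, hb0]
              norm_num)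
            rw [g1 d (by omega), e1]
            simp only [Xf_add, Xf_smul, g1 d (by omega : 0 ≤ ip C γ.1 d.1), e2, e3, e4, e5]
            simp only [ad_val, hδ, eps_add_left, eps_add_right, Int.cast_mul, egb, Int.cast_neg]
            module
          · -- d = -δ
            have hd2 : ip C γ.1 d.1 ≠ -2 := by
              intro h
              have hd : d = ng γ := Subtype.ext (ip_eq_neg_two hC γ d h)
              rw [hd, ng_val, ip_neg_right, hbg] at ha1
              norm_num at ha1
            have hs2 : ip C δ.1 d.1 = -2 := by omega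
            have hd : d = ng δ := Subtype.ext (ip_eq_neg_two hC δ d hs2)
            subst hd
            rw [gnd, fnd]
            simp only [Xf_add, Xf_sub, Xf_smul, fnd, gnd, f3, g3, d3, dnb, dng, dhg, dg, hhd]
            rcases eps_cases (C := C) β.1 γ.1 with he | he <;> rw [he] <;> push_cast <;> module
  · intro h
    show Xf β s (Xf γ t (hb h)) =
      Xf δ ((eps C β.1 γ.1 : F) * s * t) (Xf γ t (Xf β s (hb h)))
    have hp : pr δ.1 h = pr β.1 h + pr γ.1 h := by rw [hδ, pr_add_left]
    rw [g4, f4]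
    simp only [Xf_sub, Xf_add, Xf_smul, f4, g4, d4, fbg, ggb, dg, db, dd, hp]
    module

end Pool.Agent.H35.BCT
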